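import Mathlib

/-! # Groups with the normalizer condition: descending sequences -/

set_option autoImplicit false

namespace Pool.Agent.MP_b58d28_al.Adj

/-- In a group with the normalizer condition, a sequence whose next term is the conjugate, under the
previous term, of an element of `H`, up to a factor in `H`, meets the subgroup `H`. -/
theorem exists_mem_of_seq {G : Type*} [Group G] (hN : NormalizerCondition G) (H : Subgroup G)
    (g : ℕ → G) (hg : ∀ n, ∃ x ∈ H, ∃ z ∈ H, g (n + 1) = (g n)⁻¹ * x * g n * z) :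
    ∃ n, g n ∈ H := by
  by_contra hcon
  push Not at hcon
  obtain ⟨K, hHK, hK⟩ := zorn_le_nonempty₀ {K : Subgroup G | H ≤ K ∧ ∀ n, g n ∉ K} (by
    intro c hc hchain K0 hK0
    refine ⟨sSup c, ⟨?_, ?_⟩, fun s hs => le_sSup hs⟩
    · exact (hc hK0).1.trans (le_sSup hK0)
    · intro n hn
      rw [Subgroup.mem_sSup_of_directedOn ⟨K0, hK0⟩ hchain.directedOn] at hn
      obtain ⟨K1, hK1, hn1⟩ := hn
      exact (hc hK1).2 n hn1) H ⟨le_rfl, hcon⟩
  have hKtop : K < ⊤ := by
    rw [lt_top_iff_ne_top]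
    rintro rfl
    exact hK.1.2 0 (Subgroup.mem_top _)
  have hlt := hN K hKtop
  have hnot : ¬ (H ≤ Subgroup.normalizer K ∧ ∀ n, g n ∉ Subgroup.normalizer (K : Set G)) := by
    intro h
    have := hK.2 (y := Subgroup.normalizer K) h hlt.le
    exact absurd this (not_le_of_gt hlt)
  have h2 : ∃ n, g n ∈ Subgroup.normalizer (K : Set G) := by
    by_contra h
    push Not at h
    exact hnot ⟨hHK.trans hlt.le, h⟩
  obtain ⟨n, hn⟩ := h2
  obtain ⟨x, hx, z, hz, hxz⟩ := hg n
  refine hK.1.2 (n + 1) ?_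
  rw [hxz]
  refine K.mul_mem ?_ (hHK hz)
  have h3 := (Subgroup.mem_normalizer_iff.mp (inv_mem hn) x).mp (hHK hx)
  simpa using h3

end Pool.Agent.MP_b58d28_al.Adj
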