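import Pool.Agent.Lib.MP_b58d28_al.Adj.A1

/-! # Adjoint groups with the normalizer condition: semiprime quotients are reduced -/

set_option autoImplicit false
set_option linter.unusedSectionVars false

namespace Pool.Agent.MP_b58d28_al.Adj

section

variable {G R : Type*} [Group G] [NonUnitalRing R]

/-- The action of the adjoint group on the ring. -/
def act (φ : G → R) (g : G) (r : R) : R := r + φ g * r

theorem phi_one {φ : G ≃ R} (hφ : ∀ g h, φ (g * h) = φ g + φ h + φ g * φ h) : φ 1 = 0 := by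
  obtain ⟨e, he⟩ := φ.surjective 0
  have h1 := hφ 1 e
  rw [one_mul, he, mul_zero] at h1
  simpa using h1.symm

theorem act_add (φ : G → R) (g : G) (r s : R) : act φ g (r + s) = act φ g r + act φ g s := by
  unfold act
  rw [mul_add]
  abel

theorem act_mul {φ : G ≃ R} (hφ : ∀ g h, φ (g * h) = φ g + φ h + φ g * φ h) (g h : G) (r : R) :
    act φ (g * h) r = act φ g (act φ h r) := by
  unfold act
  rw [hφ, add_mul, add_mul, mul_add, mul_assoc]
  abel

theorem act_mul_right (φ : G → R) (g : G) (r s : R) : act φ g r * s = act φ g (r * s) := by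
  unfold act
  rw [add_mul, mul_assoc]

theorem act_inv_act {φ : G ≃ R} (hφ : ∀ g h, φ (g * h) = φ g + φ h + φ g * φ h) (g : G) (r : R) :
    act φ g⁻¹ (act φ g r) = r := by
  rw [← act_mul hφ, inv_mul_cancel]
  unfold act
  rw [phi_one hφ, zero_mul, add_zero]

theorem act_act_inv {φ : G ≃ R} (hφ : ∀ g h, φ (g * h) = φ g + φ h + φ g * φ h) (g : G) (r : R) :
    act φ g (act φ g⁻¹ r) = r := by
  have := act_inv_act hφ g⁻¹ r
  rwa [inv_inv] at this

theorem act_mem (φ : G → R) (I : TwoSidedIdeal R) (g : G) {r : R} (hr : r ∈ I) :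
    act φ g r ∈ I :=
  I.add_mem hr (I.mul_mem_left _ _ hr)

/-- The stabilizer of `b` modulo `I`. -/
def stab (φ : G ≃ R) (hφ : ∀ g h, φ (g * h) = φ g + φ h + φ g * φ h) (I : TwoSidedIdeal R) (b : R) :
    Subgroup G where
  carrier := {g | φ g * b ∈ I}
  one_mem' := by
    change φ 1 * b ∈ I
    rw [phi_one hφ, zero_mul]
    exact I.zero_mem
  mul_mem' := by
    intro g h hg hh
    change φ (g * h) * b ∈ I
    rw [hφ, add_mul, add_mul, mul_assoc]
    exact I.add_mem (I.add_mem hg hh) (I.mul_mem_left _ _ hh)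
  inv_mem' := by
    intro g hg
    change φ g⁻¹ * b ∈ I
    have h1 : φ g⁻¹ * b = - (act φ g⁻¹ (φ g * b)) := by
      have h2 : act φ g⁻¹ (φ g * b) = act φ g⁻¹ (act φ g b) - act φ g⁻¹ b := by
        unfold act
        rw [mul_add]
        abel
      rw [h2, act_inv_act hφ]
      unfold act
      abel
    rw [h1]
    exact I.neg_mem (act_mem φ I _ hg)

/-- If the adjoint group has the normalizer condition, then semiprime quotients are reduced. -/
theorem reduced_of_semiprime (φ : G ≃ R) (hφ : ∀ g h, φ (g * h) = φ g + φ h + φ g * φ h)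
    (hN : NormalizerCondition G) (I : TwoSidedIdeal R)
    (hI : ∀ a, (∀ r, a * r * a ∈ I) → a ∈ I) (b : R) (hb : b * b ∈ I) : b ∈ I := by
  by_contra hbI
  -- the states
  let P : G → Prop := fun f => ∃ l, l * b ∈ I ∧ l * (φ f * b) ∉ I
  have step : ∀ f : G, P f → ∃ x ∈ stab φ hφ I b, P (f⁻¹ * x * f) := by
    rintro f ⟨l, hlb, hl⟩
    have h1 : ∃ r, (l * (φ f * b)) * r * (l * (φ f * b)) ∉ I := by
      by_contra h
      push Not at h
      exact hl (hI _ h)
    obtain ⟨r, hr⟩ := h1
    -- mu = v r l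
    set v := φ f * b with hv
    set mu := v * r * l with hmu
    have hmub : mu * b ∈ I := by
      rw [hmu, mul_assoc]
      exact I.mul_mem_left _ _ hlb
    obtain ⟨x, hx⟩ := φ.surjective (act φ f mu)
    have hxb : φ x * b ∈ I := by
      rw [hx, act_mul_right]
      exact act_mem φ I f hmub
    refine ⟨x, hxb, l, hlb, ?_⟩
    -- the value of phi (f⁻¹ x f) * b modulo I
    have h2 : φ (f⁻¹ * x * f) * b = act φ (f⁻¹ * x * f) b - b := by
      unfold act
      abel
    have h3 : act φ (f⁻¹ * x * f) b = b + act φ f⁻¹ (φ x * b) + mu * v := by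
      rw [act_mul hφ, act_mul hφ]
      have e1 : act φ f b = b + v := rfl
      have e2 : act φ x (b + v) = (b + v) + (φ x * b + φ x * v) := by
        unfold act
        rw [mul_add]
      rw [e1, e2, act_add, ← e1, act_inv_act hφ, act_add, hx, act_mul_right, act_mul_right,
        act_inv_act hφ, act_inv_act hφ]
      abel
    have h4 : φ (f⁻¹ * x * f) * b = act φ f⁻¹ (φ x * b) + mu * v := by
      rw [h2, h3]
      abel
    rw [h4, mul_add]
    intro hcon
    have h5 : l * act φ f⁻¹ (φ x * b) ∈ I := I.mul_mem_left _ _ (act_mem φ I _ hxb)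
    have h6 : l * (mu * v) ∈ I := by
      have := I.sub_mem hcon h5
      simpa using this
    apply hr
    have h7 : l * v * r * (l * v) = l * (mu * v) := by
      rw [hmu]
      simp only [mul_assoc]
    rw [h7]
    exact h6
  have hinit : ∃ f : G, P f := by
    have h1 : ∃ r, b * r * b ∉ I := by
      by_contra h
      push Not at h
      exact hbI (hI _ h)
    obtain ⟨r, hr⟩ := h1
    obtain ⟨f, hf⟩ := φ.surjective r
    refine ⟨f, b, hb, ?_⟩
    rw [hf, ← mul_assoc]
    exact hr
  obtain ⟨f0, hf0⟩ := hinit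
  choose nx hnx1 hnx2 using step
  let s : ℕ → {f : G // P f} := fun n => Nat.rec ⟨f0, hf0⟩
    (fun _ f => ⟨f.1⁻¹ * nx f.1 f.2 * f.1, hnx2 f.1 f.2⟩) n
  obtain ⟨n, hn⟩ := exists_mem_of_seq hN (stab φ hφ I b) (fun n => (s n).1) (by
    intro n
    exact ⟨nx (s n).1 (s n).2, hnx1 _ _, 1, Subgroup.one_mem _, by rw [mul_one]⟩)
  obtain ⟨l, -, hl⟩ := (s n).2
  exact hl (I.mul_mem_left _ _ hn)

end

end Pool.Agent.MP_b58d28_al.Adj
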