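import Mathlib

/-! # Reduced ideals are intersections of completely prime ideals -/

set_option autoImplicit false

namespace Pool.Agent.MP_b58d28_al.Adj

variable {R : Type*} [NonUnitalRing R]

/-- The additive subgroup `P` is a two-sided ideal with reduced quotient. -/
def RedIdl (P : AddSubgroup R) : Prop :=
  (∀ r x, x ∈ P → r * x ∈ P) ∧ (∀ r x, x ∈ P → x * r ∈ P) ∧ ∀ b, b * b ∈ P → b ∈ P

theorem RedIdl.comm {P : AddSubgroup R} (h : RedIdl P) {x y : R} (hxy : x * y ∈ P) : y * x ∈ P := by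
  apply h.2.2
  have : y * x * (y * x) = y * ((x * y) * x) := by simp only [mul_assoc]
  rw [this]
  exact h.1 _ _ (h.2.1 _ _ hxy)

theorem RedIdl.insert {P : AddSubgroup R} (h : RedIdl P) {x y : R} (hxy : x * y ∈ P) (r : R) :
    x * r * y ∈ P := by
  apply h.2.2
  have : x * r * y * (x * r * y) = x * r * ((y * x) * (r * y)) := by simp only [mul_assoc]
  rw [this]
  exact h.1 _ _ (h.2.1 _ _ (h.comm hxy))

/-- The annihilator of `a` modulo `P`. -/
def ann (P : AddSubgroup R) (a : R) : AddSubgroup R := P.comap (AddMonoidHom.mulLeft a)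

theorem mem_ann {P : AddSubgroup R} {a x : R} : x ∈ ann P a ↔ a * x ∈ P := Iff.rfl

theorem RedIdl.ann {P : AddSubgroup R} (h : RedIdl P) (a : R) : RedIdl (ann P a) := by
  refine ⟨?_, ?_, ?_⟩
  · intro r x hx
    rw [mem_ann] at hx ⊢
    rw [← mul_assoc]
    exact h.insert hx r
  · intro r x hx
    rw [mem_ann] at hx ⊢
    rw [← mul_assoc]
    exact h.2.1 _ _ hx
  · intro b hb
    rw [mem_ann] at hb ⊢
    apply h.2.2
    rw [← mul_assoc] at hb
    have := h.insert hb a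
    have e : a * b * (a * b) = a * b * a * b := by simp only [mul_assoc]
    rw [e]
    exact this

theorem RedIdl.le_ann {P : AddSubgroup R} (h : RedIdl P) (a : R) : P ≤ Adj.ann P a :=
  fun x hx => h.1 a x hx

theorem exists_completelyPrime {I : AddSubgroup R} (hI : RedIdl I) {c : R} (hc : c ∉ I) :
    ∃ P : AddSubgroup R, RedIdl P ∧ I ≤ P ∧ c ∉ P ∧ ∀ a b, a * b ∈ P → a ∈ P ∨ b ∈ P := by
  obtain ⟨P, hIP, hP⟩ := zorn_le_nonempty₀ {P : AddSubgroup R | RedIdl P ∧ c ∉ P} (by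
    intro s hs hchain K0 hK0
    have hmem : ∀ x, x ∈ sSup s ↔ ∃ K ∈ s, x ∈ K := fun x =>
      AddSubgroup.mem_sSup_of_directedOn ⟨K0, hK0⟩ hchain.directedOn
    refine ⟨sSup s, ⟨⟨?_, ?_, ?_⟩, ?_⟩, fun K hK => le_sSup hK⟩
    · intro r x hx
      obtain ⟨K, hK, hxK⟩ := (hmem x).mp hx
      exact (hmem _).mpr ⟨K, hK, (hs hK).1.1 r x hxK⟩
    · intro r x hx
      obtain ⟨K, hK, hxK⟩ := (hmem x).mp hx
      exact (hmem _).mpr ⟨K, hK, (hs hK).1.2.1 r x hxK⟩
    · intro b hb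
      obtain ⟨K, hK, hxK⟩ := (hmem _).mp hb
      exact (hmem _).mpr ⟨K, hK, (hs hK).1.2.2 b hxK⟩
    · intro hcs
      obtain ⟨K, hK, hxK⟩ := (hmem _).mp hcs
      exact (hs hK).2 hxK) I ⟨hI, hc⟩
  refine ⟨P, hP.1.1, hIP, hP.1.2, ?_⟩
  intro a b hab
  by_contra hcon
  push Not at hcon
  obtain ⟨ha, hb⟩ := hcon
  have hred := hP.1.1
  -- c annihilates a modulo P
  have h1 : c ∈ ann P a := by
    by_contra h
    have := hP.2 (y := ann P a) ⟨hred.ann a, h⟩ (hred.le_ann a)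
    exact hb (this hab)
  have h2 : c * a ∈ P := hred.comm h1
  have h3 : c ∈ ann P c := by
    by_contra h
    have := hP.2 (y := ann P c) ⟨hred.ann c, h⟩ (hred.le_ann c)
    exact ha (this h2)
  exact hP.1.2 (hred.2.2 c h3)

end Pool.Agent.MP_b58d28_al.Adj
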