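import Mathlib

/-! # Unipotent automorphisms of commutative radical domains -/

set_option autoImplicit false
set_option linter.unusedSectionVars false

namespace Pool.Agent.MP_b58d28_al.Adj

open Polynomial

section group

variable {M : Type*} [CommGroup M]

/-- `u ↦ u⁻¹ τ(u)` -/
def dl (τ : M →* M) : M →* M where
  toFun u := u⁻¹ * τ u
  map_one' := by simp
  map_mul' u v := by
    rw [map_mul, mul_inv]
    exact mul_mul_mul_comm _ _ _ _

theorem dl_apply (τ : M →* M) (u : M) : dl τ u = u⁻¹ * τ u := rfl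

theorem tau_dl (τ : M →* M) (u : M) : τ (dl τ u) = dl τ (τ u) := by
  simp [dl_apply]

theorem tau_iter_dl (τ : M →* M) (n : ℕ) (u : M) : τ ((dl τ)^[n] u) = (dl τ)^[n] (τ u) := by
  induction n generalizing u with
  | zero => rfl
  | succ n ih => rw [Function.iterate_succ_apply, Function.iterate_succ_apply, ih, tau_dl]

theorem iter_tau_iter_dl (τ : M →* M) (m n : ℕ) (u : M) :
    τ^[m] ((dl τ)^[n] u) = (dl τ)^[n] (τ^[m] u) := by
  induction m generalizing u with
  | zero => rfl
  | succ m ih => rw [Function.iterate_succ_apply, tau_iter_dl, ih, Function.iterate_succ_apply]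

theorem iter_mul_of_fixed (τ : M →* M) {g d : M} (h1 : τ g = g * d) (h2 : τ d = d) (i : ℕ) :
    τ^[i] g = g * d ^ i := by
  induction i with
  | zero => simp
  | succ i ih =>
    rw [Function.iterate_succ_apply', ih, map_mul, map_pow, h1, h2, pow_succ]
    group

theorem dl_pow_eq_one (τ : M →* M) (p : ℕ) (n : ℕ) (u : M) (hp : τ^[p] u = u)
    (hn : (dl τ)^[n] u = 1) : ∃ r : ℕ, (dl τ u) ^ (p ^ r) = 1 := by
  induction n generalizing u with
  | zero =>
    rw [Function.iterate_zero, id] at hn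
    exact ⟨0, by rw [hn, map_one, one_pow]⟩
  | succ n ih =>
    cases n with
    | zero =>
      rw [Function.iterate_succ_apply, Function.iterate_zero, id] at hn
      exact ⟨0, by rw [hn, one_pow]⟩
    | succ n =>
      set g := (dl τ)^[n] u with hg
      have h1 : (dl τ)^[n + 1] u = dl τ g := by rw [Function.iterate_succ_apply']
      have h2 : dl τ (dl τ g) = 1 := by
        rw [← hn, Function.iterate_succ_apply', h1]
      have h3 : τ (dl τ g) = dl τ g := by
        rw [dl_apply τ (dl τ g), inv_mul_eq_one] at h2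
        exact h2.symm
      have h4 : τ g = g * dl τ g := by rw [dl_apply, mul_inv_cancel_left]
      have h5 : τ^[p] g = g := by rw [hg, iter_tau_iter_dl, hp]
      rw [iter_mul_of_fixed τ h4 h3] at h5
      have h6 : (dl τ g) ^ p = 1 := by simpa using h5
      have h7 : (dl τ)^[n + 1] (u ^ p) = 1 := by
        rw [iterate_map_pow, h1, h6]
      have h8 : τ^[p] (u ^ p) = u ^ p := by
        rw [iterate_map_pow, hp]
      obtain ⟨r, hr⟩ := ih (u ^ p) h8 h7
      refine ⟨r + 1, ?_⟩
      rw [map_pow, ← pow_mul] at hr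
      rw [pow_succ', hr]

end group

section ring

variable {B : Type*} [CommRing B] [IsDomain B]

theorem one_sub_dvd_prime (p : ℕ) (r : ℕ) (e : B) (he : e ≠ 1) (h : e ^ (p ^ r) = 1) :
    ∃ w, (1 - e) * w = p := by
  induction r generalizing e with
  | zero =>
    rw [pow_zero, pow_one] at h
    exact absurd h he
  | succ r ih =>
    by_cases h1 : e ^ p = 1
    · -- the sum of the powers vanishes
      have h2 : ∑ i ∈ Finset.range p, e ^ i = 0 := by
        have h3 := geom_sum_mul e p
        rw [h1, sub_self] at h3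
        exact (mul_eq_zero.mp h3).resolve_right (sub_ne_zero.mpr he)
      have h4 : (p : B) = ∑ i ∈ Finset.range p, (1 - e ^ i) := by
        rw [Finset.sum_sub_distrib, h2]
        simp
      have h5 : (1 - e) ∣ ∑ i ∈ Finset.range p, (1 - e ^ i) := by
        apply Finset.dvd_sum
        intro i _
        have := sub_dvd_pow_sub_pow (1 : B) e i
        rwa [one_pow] at this
      obtain ⟨w, hw⟩ := h5
      exact ⟨w, by rw [h4, hw]⟩
    · obtain ⟨w, hw⟩ := ih (e ^ p) h1 (by rw [← pow_mul, ← pow_succ']; exact h)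
      have h5 := sub_dvd_pow_sub_pow (1 : B) e p
      rw [one_pow] at h5
      obtain ⟨v, hv⟩ := h5
      exact ⟨v * w, by rw [← mul_assoc, ← hv, hw]⟩

/-- numerators and denominators of the iterated quotients of `1 + Y` under `Y ↦ z Y` -/
noncomputable def PQ (z : B) : ℕ → B[X] × B[X]
  | 0 => (1 + X, 1)
  | n + 1 => ((PQ z n).1.comp (C z * X) * (PQ z n).2, (PQ z n).2.comp (C z * X) * (PQ z n).1)

theorem PQ_map (σ : B →+* B) {z : B} (hz : σ z = z) (n : ℕ) :
    (PQ z n).1.map σ = (PQ z n).1 ∧ (PQ z n).2.map σ = (PQ z n).2 := by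
  induction n with
  | zero => simp [PQ]
  | succ n ih => simp [PQ, Polynomial.map_comp, ih.1, ih.2, hz]

theorem PQ_roots {z y : B} (hzy : z * y = 1) (n : ℕ) :
    (PQ z n).1.eval (-y ^ n) = 0 ∧ (∀ t, (PQ z n).2.eval t = 0 → ∃ j < n, t = - y ^ j) ∧
      (∀ t, (PQ z n).1.eval t = 0 → ∃ j < n + 1, t = - y ^ j) := by
  have key : ∀ (t : B) (j : ℕ), z * t = - y ^ j → t = - y ^ (j + 1) := by
    intro t j h
    have : t = y * (z * t) := by rw [← mul_assoc, mul_comm y z, hzy, one_mul]
    rw [this, h, pow_succ']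
    ring
  induction n with
  | zero =>
    refine ⟨by simp [PQ], fun t ht => by simp [PQ] at ht, fun t ht => ⟨0, by norm_num, ?_⟩⟩
    simp [PQ] at ht
    rw [pow_zero]
    linear_combination ht
  | succ n ih =>
    obtain ⟨ih1, ih2, ih3⟩ := ih
    refine ⟨?_, ?_, ?_⟩
    · have : z * (-y ^ (n + 1)) = - y ^ n := by
        rw [pow_succ']
        linear_combination (- y ^ n) * hzy
      simp [PQ, this, ih1]
    · intro t ht
      simp only [PQ, eval_mul, eval_comp, eval_C, eval_X, mul_eq_zero] at ht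
      rcases ht with ht | ht
      · obtain ⟨j, hj, hj2⟩ := ih2 _ ht
        exact ⟨j + 1, by omega, key t j hj2⟩
      · obtain ⟨j, hj, hj2⟩ := ih3 _ ht
        exact ⟨j, hj, hj2⟩
    · intro t ht
      simp only [PQ, eval_mul, eval_comp, eval_C, eval_X, mul_eq_zero] at ht
      rcases ht with ht | ht
      · obtain ⟨j, hj, hj2⟩ := ih3 _ ht
        exact ⟨j + 1, by omega, key t j hj2⟩
      · obtain ⟨j, hj, hj2⟩ := ih2 _ ht
        exact ⟨j, by omega, hj2⟩

theorem PQ_ne {z y : B} (hzy : z * y = 1) (hz : ∀ m, 0 < m → z ^ m ≠ 1) (n : ℕ) :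
    (PQ z n).1 ≠ (PQ z n).2 := by
  intro h
  obtain ⟨h1, h2, -⟩ := PQ_roots hzy n
  rw [h] at h1
  obtain ⟨j, hj, hj2⟩ := h2 _ h1
  have h3 : y ^ n = y ^ j := by
    linear_combination - hj2
  apply hz (n - j) (by omega)
  have h4 : z ^ n * y ^ n = 1 := by rw [← mul_pow, hzy, one_pow]
  have h5 : z ^ j * y ^ j = 1 := by rw [← mul_pow, hzy, one_pow]
  have h6 : z ^ n = z ^ (n - j) * z ^ j := by
    rw [← pow_add]
    congr 1
    omega
  rw [h3, h6, mul_assoc, h5, mul_one] at h4
  exact h4

/-- An eigenvector of `σ` whose eigenvalue is not a root of unity is transcendental over the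
fixed ring. -/
theorem eq_zero_of_eval (σ : B →+* B) {z y a : B} (hzy : z * y = 1)
    (hz : ∀ m, 0 < m → z ^ m ≠ 1) (hσz : σ z = z)
    (ha0 : a ≠ 0) (ha : σ a = z * a) (d : ℕ) (F : B[X]) (hd : F.natDegree ≤ d)
    (hF : F.map σ = F) (h : F.eval a = 0) : F = 0 := by
  have hne : ∀ i j, i < j → z ^ j - z ^ i ≠ 0 := by
    intro i j hij h0
    apply hz (j - i) (by omega)
    have h5 : z ^ i * y ^ i = 1 := by rw [← mul_pow, hzy, one_pow]
    have h6 : z ^ j = z ^ (j - i) * z ^ i := by
      rw [← pow_add]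
      congr 1
      omega
    calc z ^ (j - i) = z ^ (j - i) * (z ^ i * y ^ i) := by rw [h5, mul_one]
      _ = z ^ j * y ^ i := by rw [h6, mul_assoc]
      _ = z ^ i * y ^ i := by rw [sub_eq_zero.mp h0]
      _ = 1 := h5
  induction d generalizing F with
  | zero =>
    rw [eq_C_of_natDegree_le_zero hd, eval_C] at h
    rw [eq_C_of_natDegree_le_zero hd, h, C_0]
  | succ d ih =>
    set F' : B[X] := C (z ^ (d + 1)) * F - F.comp (C z * X) with hF'
    have hcoeff : ∀ i, F'.coeff i = (z ^ (d + 1) - z ^ i) * F.coeff i := by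
      intro i
      rw [hF', coeff_sub, coeff_C_mul, comp_C_mul_X_coeff]
      ring
    have h1 : F' = 0 := by
      apply ih F'
      · rw [natDegree_le_iff_coeff_eq_zero]
        intro i hi
        rw [hcoeff]
        rcases Nat.lt_or_ge (d + 1) i with h2 | h2
        · rw [natDegree_le_iff_coeff_eq_zero.mp hd i h2, mul_zero]
        · have : i = d + 1 := by omega
          rw [this, sub_self, zero_mul]
      · rw [hF', Polynomial.map_sub, Polynomial.map_mul, Polynomial.map_comp, hF]
        simp [hσz]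
      · rw [hF', eval_sub, eval_mul, h, mul_zero, eval_comp, eval_mul, eval_C, eval_X, ← ha]
        have h3 : F.eval (σ a) = σ (F.eval a) := by
          conv_lhs => rw [← hF]
          rw [eval_map, eval₂_at_apply]
        rw [h3, h, map_zero, sub_zero]
    have h2 : ∀ i, i < d + 1 → F.coeff i = 0 := by
      intro i hi
      have h3 := hcoeff i
      rw [h1, coeff_zero] at h3
      exact (mul_eq_zero.mp h3.symm).resolve_left (hne i (d + 1) hi)
    have h3 : F = C (F.coeff (d + 1)) * X ^ (d + 1) := by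
      ext i
      rw [coeff_C_mul_X_pow]
      split_ifs with h4
      · rw [h4]
      · rcases Nat.lt_or_ge i (d + 1) with h5 | h5
        · exact h2 i h5
        · exact natDegree_le_iff_coeff_eq_zero.mp hd i (by omega)
    rw [h3, eval_mul, eval_C, eval_pow, eval_X] at h
    rw [h3, (mul_eq_zero.mp h).resolve_right (pow_ne_zero _ ha0), C_0, zero_mul]

/-- The core: a domain `B` with an ideal `t` such that `1 + t` is a group on which all powers
of `σ` act in a unipotent way: then `σ` is the identity on `t`. -/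
theorem dom_core (σ : B →+* B) (t : Ideal B) (h1 : (1 : B) ∉ t)
    (hu : ∀ x ∈ t, IsUnit (1 + x)) (hσ : ∀ x ∈ t, σ x ∈ t)
    (hE : ∀ m : ℕ, ∀ u : Bˣ, (u : B) - 1 ∈ t →
      ∃ n, (dl (Units.map ((σ ^ m : B →+* B) : B →* B)))^[n] u = 1) :
    ∀ x ∈ t, σ x = x := by
  by_contra hcon
  push Not at hcon
  obtain ⟨x, hx, hxne⟩ := hcon
  obtain ⟨u, hux⟩ := hu x hx
  -- the subset 1 + t is stable
  have hst : ∀ v : Bˣ, (v : B) - 1 ∈ t → ((dl (Units.map (σ : B →* B)) v : Bˣ) : B) - 1 ∈ t := by
    intro v hv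
    rw [dl_apply, Units.val_mul, Units.coe_map]
    have e1 : (↑v⁻¹ : B) * σ v - 1 = ↑v⁻¹ * (σ ((v : B) - 1) - ((v : B) - 1)) := by
      rw [map_sub, map_one]
      have := Units.inv_mul v
      linear_combination this
    have e2 : (↑v⁻¹ : B) * (σ : B →* B) v - 1 = (↑v⁻¹ : B) * σ v - 1 := rfl
    rw [e2, e1]
    exact t.mul_mem_left _ (t.sub_mem (hσ _ hv) hv)
  have hσ1 : (σ ^ 1 : B →+* B) = σ := pow_one σ
  obtain ⟨n, hn⟩ := hE 1 u (by rw [hux]; simpa using hx)
  rw [hσ1] at hn
  set τ : Bˣ →* Bˣ := Units.map (σ : B →* B) with hτ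
  have hτv : ∀ v : Bˣ, ((τ v : Bˣ) : B) = σ v := fun v => rfl
  have hstn : ∀ (k : ℕ) (v : Bˣ), (v : B) - 1 ∈ t → (((dl τ)^[k] v : Bˣ) : B) - 1 ∈ t := by
    intro k
    induction k with
    | zero => intro v hv; exact hv
    | succ k ih =>
      intro v hv
      rw [Function.iterate_succ_apply]
      exact ih _ (hst v hv)
  have hdl : dl τ u ≠ 1 := by
    intro h
    rw [dl_apply, inv_mul_eq_one] at h
    apply hxne
    have h2 : ((u : Bˣ) : B) = σ u := by
      rw [← hτv, ← h]
    rw [hux, map_add, map_one] at h2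
    exact (add_left_cancel h2).symm
  classical
  have hex : ∃ n, (dl τ)^[n] u = 1 := ⟨n, hn⟩
  obtain ⟨k, hk⟩ : ∃ k, Nat.find hex = k + 2 := by
    have h0 : Nat.find hex ≠ 0 := by
      intro h0
      have := Nat.find_spec hex
      rw [h0, Function.iterate_zero, id] at this
      exact hdl (by rw [this, map_one])
    have h1 : Nat.find hex ≠ 1 := by
      intro h0
      have := Nat.find_spec hex
      rw [h0, Function.iterate_one] at this
      exact hdl this
    exact ⟨Nat.find hex - 2, by omega⟩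
  have hspec := Nat.find_spec hex
  have hmin := Nat.find_min hex (m := k + 1) (by omega)
  rw [hk] at hspec
  set h := (dl τ)^[k] u with hh
  have hz1 : (dl τ)^[k + 1] u = dl τ h := by rw [Function.iterate_succ_apply']
  rw [hz1] at hmin
  have hz2 : dl τ (dl τ h) = 1 := by
    rw [← hspec, Function.iterate_succ_apply', Function.iterate_succ_apply']
  set ζ := dl τ h with hζ
  have hτζ : τ ζ = ζ := by
    rw [dl_apply, inv_mul_eq_one] at hz2
    exact hz2.symm
  have hτh : τ h = h * ζ := by rw [hζ, dl_apply, mul_inv_cancel_left]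
  have hζt : (ζ : B) - 1 ∈ t := by
    rw [← hz1]
    exact hstn _ _ (by rw [hux]; simpa using hx)
  have hz : (ζ : B) ≠ 1 := fun h0 => hmin (Units.ext h0)
  have hσz : σ ζ = ζ := by rw [← hτv, hτζ]
  have hσh : σ h = h * ζ := by rw [← hτv, hτh, Units.val_mul]
  by_cases hcase : ∀ m, 0 < m → (ζ : B) ^ m ≠ 1
  · -- the eigenvalue is not a root of unity
    set a : B := ((ζ : B) - 1) * h with ha
    have hat : a ∈ t := t.mul_mem_right _ hζt
    have ha0 : a ≠ 0 := mul_ne_zero (sub_ne_zero.mpr hz) h.ne_zero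
    have hσa : σ a = ζ * a := by
      rw [ha, map_mul, map_sub, map_one, hσz, hσh]
      ring
    obtain ⟨v, hv⟩ := hu a hat
    obtain ⟨n', hn'⟩ := hE 1 v (by rw [hv]; simpa using hat)
    rw [hσ1, ← hτ] at hn'
    have hclaim : ∀ n, (((dl τ)^[n] v : Bˣ) : B) * (PQ (ζ : B) n).2.eval a =
        (PQ (ζ : B) n).1.eval a := by
      intro n
      induction n with
      | zero => simp [PQ, hv]
      | succ n ih =>
        rw [Function.iterate_succ_apply']
        set c := (dl τ)^[n] v with hc
        have e1 : (PQ (ζ : B) (n + 1)).2.eval a =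
            (PQ (ζ : B) n).2.eval (ζ * a) * (PQ (ζ : B) n).1.eval a := by
          simp [PQ]
        have e2 : (PQ (ζ : B) (n + 1)).1.eval a =
            (PQ (ζ : B) n).1.eval (ζ * a) * (PQ (ζ : B) n).2.eval a := by
          simp [PQ]
        have e3 : (PQ (ζ : B) n).2.eval (ζ * a) = σ ((PQ (ζ : B) n).2.eval a) := by
          conv_lhs => rw [← (PQ_map σ hσz n).2]
          rw [← hσa, eval_map, eval₂_at_apply]
        have e4 : (PQ (ζ : B) n).1.eval (ζ * a) = σ ((PQ (ζ : B) n).1.eval a) := by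
          conv_lhs => rw [← (PQ_map σ hσz n).1]
          rw [← hσa, eval_map, eval₂_at_apply]
        rw [e1, e2, e3, e4, dl_apply, Units.val_mul, hτv]
        have e5 : σ (c : B) * σ ((PQ (ζ : B) n).2.eval a) = σ ((PQ (ζ : B) n).1.eval a) := by
          rw [← map_mul, ih]
        rw [← e5, ← ih]
        have e6 := Units.inv_mul c
        linear_combination (σ (c : B) * σ ((PQ (ζ : B) n).2.eval a) *
          ((PQ (ζ : B) n).2.eval a)) * e6
    have h2 := hclaim n'
    rw [hn', Units.val_one, one_mul] at h2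
    have h3 : (PQ (ζ : B) n').1 - (PQ (ζ : B) n').2 = 0 := by
      apply eq_zero_of_eval σ (Units.mul_inv ζ) hcase hσz ha0 hσa _ _ le_rfl
      · rw [Polynomial.map_sub, (PQ_map σ hσz n').1, (PQ_map σ hσz n').2]
      · rw [eval_sub, h2, sub_self]
    exact PQ_ne (Units.mul_inv ζ) hcase n' (sub_eq_zero.mp h3)
  · -- the eigenvalue is a root of unity
    push Not at hcase
    obtain ⟨m, hm, hm1⟩ := hcase
    have hfin : IsOfFinOrder (ζ : B) := isOfFinOrder_iff_pow_eq_one.mpr ⟨m, hm, hm1⟩
    have hord : 0 < orderOf (ζ : B) := hfin.orderOf_pos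
    have hord1 : orderOf (ζ : B) ≠ 1 := fun h0 => hz (orderOf_eq_one_iff.mp h0)
    set p := (orderOf (ζ : B)).minFac with hp
    have hpp : p.Prime := Nat.minFac_prime hord1
    obtain ⟨m1, hm1'⟩ := Nat.minFac_dvd (orderOf (ζ : B))
    rw [← hp] at hm1'
    have hm1pos : 0 < m1 := by
      rcases Nat.eq_zero_or_pos m1 with h0 | h0
      · rw [h0, mul_zero] at hm1'
        omega
      · exact h0
    set z1 : B := (ζ : B) ^ m1 with hz1'
    have hz1p : z1 ^ p = 1 := by
      rw [hz1', ← pow_mul, mul_comm, ← hm1', pow_orderOf_eq_one]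
    have hz1ne : z1 ≠ 1 := by
      apply pow_ne_one_of_lt_orderOf hm1pos.ne'
      rw [hm1']
      have := hpp.two_le
      nlinarith
    have hpB : (p : B) ≠ 0 := by
      intro h0
      obtain ⟨r, hr⟩ := exists_add_pow_prime_eq hpp (z1 - 1) 1
      rw [sub_add_cancel, hz1p, one_pow, h0] at hr
      have h2 : (z1 - 1) ^ p = 0 := by linear_combination - hr
      exact hz1ne (sub_eq_zero.mp (pow_eq_zero_iff hpp.ne_zero |>.mp h2))
    set σ1 : B →+* B := σ ^ m1 with hσ1'
    have hiter : ∀ (i : ℕ), (σ ^ i : B →+* B) ζ = ζ ∧ (σ ^ i : B →+* B) h = h * (ζ : B) ^ i := by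
      intro i
      induction i with
      | zero => simp
      | succ i ih =>
        rw [pow_succ', RingHom.mul_def, RingHom.comp_apply, RingHom.comp_apply, ih.1, ih.2, hσz,
          map_mul, map_pow, hσz, hσh]
        exact ⟨rfl, by ring⟩
    have hσ1h : σ1 h = h * z1 := (hiter m1).2
    have hσ1z : σ1 z1 = z1 := by rw [hz1', map_pow, (hiter m1).1]
    have hz1t : z1 - 1 ∈ t := by
      have := sub_dvd_pow_sub_pow (ζ : B) 1 m1
      rw [one_pow] at this
      exact t.mem_of_dvd this hζt
    set a1 : B := (z1 - 1) * h with ha1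
    have ha1t : a1 ∈ t := t.mul_mem_right _ hz1t
    set a : B := p * a1 with ha
    have hat : a ∈ t := t.mul_mem_left _ ha1t
    have ha0 : a ≠ 0 := mul_ne_zero hpB (mul_ne_zero (sub_ne_zero.mpr hz1ne) h.ne_zero)
    have hσa : σ1 a = z1 * a := by
      rw [ha, ha1, map_mul, map_mul, map_sub, map_one, map_natCast, hσ1z, hσ1h]
      ring
    obtain ⟨v, hv⟩ := hu a hat
    obtain ⟨n', hn'⟩ := hE m1 v (by rw [hv]; simpa using hat)
    set τ1 : Bˣ →* Bˣ := Units.map ((σ1 : B →+* B) : B →* B) with hτ1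
    have hτ1v : ∀ v : Bˣ, ((τ1 v : Bˣ) : B) = σ1 v := fun v => rfl
    have hfix : τ1^[p] v = v := by
      have h5 : ∀ i, ((τ1^[i] v : Bˣ) : B) = 1 + z1 ^ i * a := by
        intro i
        induction i with
        | zero => simp [hv]
        | succ i ih =>
          rw [Function.iterate_succ_apply', hτ1v, ih, map_add, map_one, map_mul, map_pow, hσ1z, hσa]
          ring
      apply Units.ext
      rw [h5, hz1p, hv, one_mul]
    obtain ⟨r, hr⟩ := dl_pow_eq_one τ1 p n' v hfix hn'
    set e : Bˣ := dl τ1 v with he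
    have he1 : (e : B) ^ (p ^ r) = 1 := by
      rw [← Units.val_pow_eq_pow_val, hr, Units.val_one]
    have he2 : (1 + a) * (e : B) = 1 + z1 * a := by
      have h6 : v * e = τ1 v := by rw [he, dl_apply, mul_inv_cancel_left]
      have h7 : ((v * e : Bˣ) : B) = σ1 v := by rw [h6, hτ1v]
      rw [Units.val_mul, hv, map_add, map_one, hσa] at h7
      exact h7
    have he3 : (e : B) ≠ 1 := by
      intro h0
      rw [h0, mul_one] at he2
      have h8 : (z1 - 1) * a = 0 := by linear_combination - he2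
      rcases mul_eq_zero.mp h8 with h9 | h9
      · exact hz1ne (sub_eq_zero.mp h9)
      · exact ha0 h9
    obtain ⟨w, hw⟩ := one_sub_dvd_prime p r (e : B) he3 he1
    have h10 : (p : B) * ((z1 - e) * a1 * w + 1) = 0 := by
      rw [ha] at he2
      linear_combination (-w) * he2 + (-1 : B) * hw
    have h11 : (z1 - e) * a1 * w + 1 = 0 := (mul_eq_zero.mp h10).resolve_left hpB
    apply h1
    have h12 : (1 : B) = - ((z1 - e) * w * a1) := by linear_combination h11
    rw [h12]
    exact t.neg_mem (t.mul_mem_left _ ha1t)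

end ring

end Pool.Agent.MP_b58d28_al.Adj
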