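import Pool.Agent.Lib.MP_b58d28_al.Adj.A1
import Pool.Agent.Lib.MP_b58d28_al.Adj.A4

/-! # Domains whose radical subgroup has the normalizer condition are commutative -/

set_option autoImplicit false
set_option linter.unusedSectionVars false

namespace Pool.Agent.MP_b58d28_al.Adj

/-- In a group with the normalizer condition iterated commutators vanish. -/
theorem engel {G : Type*} [Group G] (hN : NormalizerCondition G) (y : G) (c : ℕ → G)
    (hc : ∀ n, c (n + 1) = (c n)⁻¹ * (y⁻¹ * c n * y)) : ∃ n, c n = 1 := by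
  obtain ⟨n, hn⟩ := exists_mem_of_seq hN (Subgroup.zpowers y) c (by
    intro n
    refine ⟨y⁻¹, Subgroup.inv_mem _ (Subgroup.mem_zpowers y), y, Subgroup.mem_zpowers y, ?_⟩
    rw [hc]
    group)
  refine ⟨n + 1, ?_⟩
  obtain ⟨k, hk⟩ := Subgroup.mem_zpowers_iff.mp hn
  rw [hc, ← hk]
  group

variable {D : Type*} [Ring D] [IsDomain D] {G : Type*} [Group G]

theorem dom_comm (hN : NormalizerCondition G) (U : G →* Dˣ) (rad : Ideal D)
    (hr : ∀ x ∈ rad, ∀ d, x * d ∈ rad) (hU : ∀ g, (U g : D) - 1 ∈ rad)
    (hsurj : ∀ d ∈ rad, ∃ g, (U g : D) = 1 + d) : ∀ x ∈ rad, ∀ y ∈ rad, x * y = y * x := by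
  by_contra hcon
  push Not at hcon
  obtain ⟨x0, hx0, y0, hy0, hxy0⟩ := hcon
  have h1rad : (1 : D) ∉ rad := by
    intro h
    obtain ⟨g, hg⟩ := hsurj (-1) (rad.neg_mem h)
    rw [add_neg_cancel] at hg
    exact (U g).ne_zero hg
  -- a maximal commuting subset of the radical
  obtain ⟨S, -, hS⟩ := zorn_subset_nonempty {S : Set D | S ⊆ rad ∧ ∀ x ∈ S, ∀ y ∈ S, x * y = y * x} (by
    intro c hc hchain _
    refine ⟨⋃₀ c, ⟨?_, ?_⟩, fun s hs => Set.subset_sUnion_of_mem hs⟩
    · exact Set.sUnion_subset fun s hs => (hc hs).1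
    · rintro x ⟨s, hs, hxs⟩ y ⟨s', hs', hys'⟩
      rcases hchain.total hs hs' with h | h
      · exact (hc hs').2 x (h hxs) y hys'
      · exact (hc hs).2 x hxs y (h hys')) ∅ ⟨Set.empty_subset _, by simp⟩
  have hSr : S ⊆ rad := hS.1.1
  have hSc : ∀ x ∈ S, ∀ y ∈ S, x * y = y * x := hS.1.2
  have hmax : ∀ x ∈ rad, (∀ s ∈ S, x * s = s * x) → x ∈ S := by
    intro x hx hxs
    have h1 : insert x S ∈ {S : Set D | S ⊆ rad ∧ ∀ x ∈ S, ∀ y ∈ S, x * y = y * x} := by
      refine ⟨Set.insert_subset hx hSr, ?_⟩
      rintro a (rfl | ha) b (rfl | hb)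
      · rfl
      · exact hxs b hb
      · exact (hxs a ha).symm
      · exact hSc a ha b hb
    exact hS.2 h1 (Set.subset_insert x S) (Set.mem_insert x S)
  -- the corresponding subgroup
  let H : Subgroup G :=
    { carrier := {g | ∀ s ∈ S, (U g : D) * s = s * U g}
      one_mem' := by
        intro s _
        simp
      mul_mem' := by
        intro a b ha hb s hs
        rw [map_mul, Units.val_mul, mul_assoc, hb s hs, ← mul_assoc, ha s hs, mul_assoc]
      inv_mem' := by
        intro a ha s hs
        rw [map_inv]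
        have h1 := ha s hs
        calc (↑(U a)⁻¹ : D) * s = ↑(U a)⁻¹ * (s * U a) * ↑(U a)⁻¹ := by
              rw [mul_assoc, mul_assoc, Units.mul_inv, mul_one]
          _ = ↑(U a)⁻¹ * (U a * s) * ↑(U a)⁻¹ := by rw [h1]
          _ = s * ↑(U a)⁻¹ := by rw [← mul_assoc, Units.inv_mul, one_mul] }
  have hHmem : ∀ g, g ∈ H ↔ ∀ s ∈ S, (U g : D) * s = s * U g := fun g => Iff.rfl
  have hHS : ∀ g, g ∈ H → (U g : D) - 1 ∈ S := by
    intro g hg
    apply hmax _ (hU g)
    intro s hs
    rw [sub_mul, mul_sub, (hHmem g).mp hg s hs, one_mul, mul_one]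
  have hHtop : H < ⊤ := by
    rw [lt_top_iff_ne_top]
    intro h
    apply hxy0
    have hall : ∀ x ∈ rad, x ∈ S := by
      intro x hx
      obtain ⟨g, hg⟩ := hsurj x hx
      have := hHS g (by rw [h]; exact Subgroup.mem_top g)
      rwa [hg, add_sub_cancel_left] at this
    exact hSc _ (hall _ hx0) _ (hall _ hy0)
  obtain ⟨f, hf, hfH⟩ := SetLike.exists_of_lt (hN H hHtop)
  set F : Dˣ := U f with hF
  have hconj : ∀ s ∈ S, (F : D) * s * ↑F⁻¹ ∈ S := by
    intro s hs
    obtain ⟨g, hg⟩ := hsurj s (hSr hs)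
    have hgH : g ∈ H := by
      rw [hHmem]
      intro s' hs'
      rw [hg, add_mul, mul_add, one_mul, mul_one, hSc s hs s' hs']
    have h2 : f * g * f⁻¹ ∈ H := (Subgroup.mem_normalizer_iff.mp hf g).mp hgH
    have h3 : (U (f * g * f⁻¹) : D) - 1 = F * s * ↑F⁻¹ := by
      rw [map_mul, map_mul, map_inv, Units.val_mul, Units.val_mul, hg, mul_add, add_mul, mul_one,
        ← hF, Units.mul_inv, add_sub_cancel_left]
    rw [← h3]
    exact hHS _ h2
  -- the centralizer of S
  have hex : ∃ s ∈ S, (F : D) * s ≠ s * F := by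
    by_contra h
    push Not at h
    exact hfH ((hHmem f).mpr h)
  obtain ⟨t0, ht0, hFt0⟩ := hex
  have ht00 : t0 ≠ 0 := by
    rintro rfl
    simp at hFt0
  have hcent : ∀ x, x ∈ Subring.centralizer S ↔ ∀ s ∈ S, s * x = x * s := fun x =>
    Subring.mem_centralizer_iff
  have hcommB : ∀ x y : Subring.centralizer S, x * y = y * x := by
    rintro ⟨x, hx⟩ ⟨y, hy⟩
    apply Subtype.ext
    change x * y = y * x
    rw [hcent] at hx hy
    have hxt : x * t0 ∈ S := by
      apply hmax _ (rad.mul_mem_left _ (hSr ht0))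
      intro s hs
      rw [mul_assoc, hSc t0 ht0 s hs, ← mul_assoc, ← hx s hs, mul_assoc]
    have hyt : y * t0 ∈ S := by
      apply hmax _ (rad.mul_mem_left _ (hSr ht0))
      intro s hs
      rw [mul_assoc, hSc t0 ht0 s hs, ← mul_assoc, ← hy s hs, mul_assoc]
    have h3 := hSc _ hxt _ hyt
    have h4 : (x * y - y * x) * (t0 * t0) = 0 := by
      have e1 : x * t0 * (y * t0) = x * y * (t0 * t0) := by
        rw [mul_assoc, ← mul_assoc t0 y t0, hy t0 ht0]
        simp only [mul_assoc]
      have e2 : y * t0 * (x * t0) = y * x * (t0 * t0) := by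
        rw [mul_assoc, ← mul_assoc t0 x t0, hx t0 ht0]
        simp only [mul_assoc]
      rw [sub_mul, ← e1, ← e2, h3, sub_self]
    have h5 := (mul_eq_zero.mp h4).resolve_right (mul_ne_zero ht00 ht00)
    exact sub_eq_zero.mp h5
  letI : CommRing (Subring.centralizer S) :=
    { (inferInstance : Ring (Subring.centralizer S)) with mul_comm := hcommB }
  haveI : IsDomain (Subring.centralizer S) := inferInstance
  have hσmem : ∀ x ∈ Subring.centralizer S, (↑F⁻¹ : D) * x * F ∈ Subring.centralizer S := by
    intro x hx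
    rw [hcent] at hx ⊢
    intro s hs
    have h2 := hx _ (hconj s hs)
    have h3 : (F : D) * s * ↑F⁻¹ * x = x * (F * s * ↑F⁻¹) := h2
    calc s * (↑F⁻¹ * x * F) = ↑F⁻¹ * (F * s * ↑F⁻¹ * x) * F := by
          simp only [mul_assoc, Units.inv_mul_cancel_left]
      _ = ↑F⁻¹ * (x * (F * s * ↑F⁻¹)) * F := by rw [h3]
      _ = ↑F⁻¹ * x * F * s := by simp only [mul_assoc, Units.inv_mul, mul_one]
  let σ : Subring.centralizer S →+* Subring.centralizer S :=
    { toFun := fun x => ⟨↑F⁻¹ * x.1 * F, hσmem x.1 x.2⟩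
      map_one' := by
        apply Subtype.ext
        simp
      map_mul' := by
        intro x y
        apply Subtype.ext
        simp only [Subring.coe_mul, mul_assoc, Units.mul_inv_cancel_left]
      map_zero' := by
        apply Subtype.ext
        simp
      map_add' := by
        intro x y
        apply Subtype.ext
        simp only [Subring.coe_add, mul_add, add_mul] }
  have hσv : ∀ x : Subring.centralizer S, ((σ x : Subring.centralizer S) : D) = ↑F⁻¹ * x.1 * F :=
    fun x => rfl
  have hσpow : ∀ (m : ℕ) (x : Subring.centralizer S),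
      (((σ ^ m : Subring.centralizer S →+* Subring.centralizer S) x : Subring.centralizer S) : D) =
        ↑(F ^ m)⁻¹ * x.1 * ↑(F ^ m) := by
    intro m
    induction m with
    | zero => intro x; simp
    | succ m ih =>
      intro x
      rw [pow_succ', RingHom.mul_def, RingHom.comp_apply, hσv, ih, pow_succ]
      simp only [mul_inv_rev, Units.val_mul, mul_assoc]
  let t : Ideal (Subring.centralizer S) :=
    { carrier := {x | (x : D) ∈ rad}
      add_mem' := fun ha hb => rad.add_mem ha hb
      zero_mem' := rad.zero_mem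
      smul_mem' := fun c x hx => rad.mul_mem_left _ hx }
  have htmem : ∀ x, x ∈ t ↔ (x : D) ∈ rad := fun x => Iff.rfl
  have hkey := dom_core σ t (fun h => h1rad h) ?_ ?_ ?_
  · -- conclusion
    apply hFt0
    have h2 : t0 ∈ Subring.centralizer S := by
      rw [hcent]
      intro s hs
      exact hSc s hs t0 ht0
    have h3 := hkey ⟨t0, h2⟩ (hSr ht0)
    have h4 : (↑F⁻¹ : D) * t0 * F = t0 := congrArg Subtype.val h3
    calc (F : D) * t0 = F * (↑F⁻¹ * t0 * F) := by rw [h4]
      _ = t0 * F := by simp only [mul_assoc, Units.mul_inv_cancel_left]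
  · -- units
    intro x hx
    obtain ⟨g, hg⟩ := hsurj x.1 hx
    have hxc := (hcent _).mp x.2
    have h2 : (U g : D) ∈ Subring.centralizer S := by
      rw [hcent]
      intro s hs
      rw [hg, mul_add, add_mul, mul_one, one_mul, hxc s hs]
    have hgH : g ∈ H := by
      rw [hHmem]
      intro s hs
      exact ((hcent _).mp h2 s hs).symm
    have h3 : ((U g)⁻¹ : Dˣ).1 ∈ Subring.centralizer S := by
      rw [hcent]
      intro s hs
      have h4 := (hHmem _).mp (H.inv_mem hgH) s hs
      rw [map_inv] at h4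
      exact h4.symm
    refine ⟨⟨⟨_, h2⟩, ⟨_, h3⟩, ?_, ?_⟩, ?_⟩
    · apply Subtype.ext
      exact Units.mul_inv _
    · apply Subtype.ext
      exact Units.inv_mul _
    · apply Subtype.ext
      exact hg
  · -- stability
    intro x hx
    rw [htmem, hσv]
    exact hr _ (rad.mul_mem_left _ hx) _
  · -- the Engel property
    intro m u hu
    obtain ⟨g, hg⟩ := hsurj _ hu
    have hg' : (U g : D) = ((u : Subring.centralizer S) : D) := by
      rw [hg]
      change 1 + (((u : Subring.centralizer S) : D) - 1) = _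
      abel
    let c : ℕ → G := fun n => Nat.rec g (fun _ c => c⁻¹ * ((f ^ m)⁻¹ * c * f ^ m)) n
    obtain ⟨n, hn⟩ := engel hN (f ^ m) c (fun n => rfl)
    refine ⟨n, ?_⟩
    have hclaim : ∀ n, (U (c n) : D) = (((dl (Units.map
        ((σ ^ m : Subring.centralizer S →+* Subring.centralizer S) :
          Subring.centralizer S →* Subring.centralizer S)))^[n] u :
            (Subring.centralizer S)ˣ) : Subring.centralizer S).1 := by
      intro n
      induction n with
      | zero => exact hg'
      | succ n ih =>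
        rw [Function.iterate_succ_apply', dl_apply]
        set w := (dl (Units.map
          ((σ ^ m : Subring.centralizer S →+* Subring.centralizer S) :
            Subring.centralizer S →* Subring.centralizer S)))^[n] u with hw
        have e1 : c (n + 1) = (c n)⁻¹ * ((f ^ m)⁻¹ * c n * f ^ m) := rfl
        rw [e1, map_mul, map_mul, map_mul, map_inv, map_inv, map_pow, ← hF, Units.val_mul,
          Units.val_mul, Units.val_mul, Units.val_mul, ih]
        have e2 : (((Units.map ((σ ^ m : Subring.centralizer S →+* Subring.centralizer S) :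
            Subring.centralizer S →* Subring.centralizer S)) w :
              (Subring.centralizer S)ˣ) : Subring.centralizer S).1 =
            ↑(F ^ m)⁻¹ * (w : Subring.centralizer S).1 * ↑(F ^ m) := hσpow m _
        have e3 : (↑(U (c n))⁻¹ : D) = ((w⁻¹ : (Subring.centralizer S)ˣ) :
            Subring.centralizer S).1 := by
          have h5 : ((w⁻¹ : (Subring.centralizer S)ˣ) : Subring.centralizer S).1 *
              (U (c n) : D) = 1 := by
            rw [ih]
            exact congrArg Subtype.val (Units.inv_mul w)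
          calc (↑(U (c n))⁻¹ : D) = 1 * ↑(U (c n))⁻¹ := by rw [one_mul]
            _ = _ := by rw [← h5, mul_assoc, Units.mul_inv, mul_one]
        rw [e3]
        exact (congrArg (fun z => ((w⁻¹ : (Subring.centralizer S)ˣ) :
            Subring.centralizer S).1 * z) e2).symm
    have h6 := hclaim n
    rw [hn, map_one, Units.val_one] at h6
    apply Units.ext
    apply Subtype.ext
    exact h6.symm

end Pool.Agent.MP_b58d28_al.Adj
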