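import Pool.Agent.Lib.MP_b58d28_al.Adj.A2
import Pool.Agent.Lib.MP_b58d28_al.Adj.A3
import Pool.Agent.Lib.MP_b58d28_al.Adj.A5

/-! # Semiprime quotients are commutative -/

set_option autoImplicit false
set_option linter.unusedSectionVars false

namespace Pool.Agent.MP_b58d28_al.Adj

section

variable {R : Type*} [NonUnitalRing R]

/-- The unitization, as a ring. -/
def UE (R : Type*) [NonUnitalRing R] : Type _ := Unitization ℤ R

noncomputable instance : Ring (UE R) := inferInstanceAs (Ring (Unitization ℤ R))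

/-- The inclusion. -/
def UE.of (r : R) : UE R := (r : Unitization ℤ R)

theorem UE.of_add (r s : R) : UE.of (r + s) = UE.of r + UE.of s := Unitization.inr_add ℤ r s

theorem UE.of_sub (r s : R) : UE.of (r - s) = UE.of r - UE.of s := Unitization.inr_sub ℤ r s

theorem UE.of_mul (r s : R) : UE.of (r * s) = UE.of r * UE.of s := Unitization.inr_mul ℤ r s

theorem UE.of_zero : UE.of (0 : R) = 0 := Unitization.inr_zero ℤ

/-- The action of the unitization on the ring. -/
def ev0 (e : Unitization ℤ R) (r : R) : R := e.fst • r + e.snd * r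

theorem ev0_mul (e e' : Unitization ℤ R) (r : R) : ev0 (e * e') r = ev0 e (ev0 e' r) := by
  simp only [ev0, Unitization.fst_mul, Unitization.snd_mul, add_mul, mul_add, smul_add,
    smul_mul_assoc, mul_smul_comm, mul_assoc, mul_smul]
  abel

theorem ev0_add (e e' : Unitization ℤ R) (r : R) : ev0 (e + e') r = ev0 e r + ev0 e' r := by
  simp only [ev0, Unitization.fst_add, Unitization.snd_add, add_mul, add_smul]
  abel

theorem mul_inr_eq0 (e : Unitization ℤ R) (r : R) : e * (r : Unitization ℤ R) = (ev0 e r : R) := by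
  apply Unitization.ext
  · rw [Unitization.fst_mul, Unitization.fst_inr, Unitization.fst_inr, mul_zero]
  · rw [Unitization.snd_mul, Unitization.fst_inr, Unitization.snd_inr, Unitization.snd_inr,
      zero_smul, add_zero, ev0]

theorem inr_mul_eq0 (e : Unitization ℤ R) (x : R) :
    (x : Unitization ℤ R) * e = ((e.fst • x + x * e.snd : R) : Unitization ℤ R) := by
  apply Unitization.ext
  · rw [Unitization.fst_mul, Unitization.fst_inr, Unitization.fst_inr, zero_mul]
  · rw [Unitization.snd_mul, Unitization.fst_inr, Unitization.snd_inr, Unitization.snd_inr,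
      zero_smul, zero_add]

/-- The action of the unitization on the ring. -/
def ev (e : UE R) (r : R) : R := ev0 e r

/-- The right action of the unitization on the ring. -/
def ve0 (e : Unitization ℤ R) (x : R) : R := e.fst • x + x * e.snd

/-- The right action of the unitization on the ring. -/
def ve (e : UE R) (x : R) : R := ve0 e x

theorem ev_mul (e e' : UE R) (r : R) : ev (e * e') r = ev e (ev e' r) := ev0_mul e e' r

theorem ev_add (e e' : UE R) (r : R) : ev (e + e') r = ev e r + ev e' r := ev0_add e e' r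

theorem ev_zero (r : R) : ev (0 : UE R) r = 0 := by
  have h := ev_add (0 : UE R) 0 r
  rw [add_zero] at h
  simpa using h.symm

theorem ev_of (r s : R) : ev (UE.of r) s = r * s := by
  change ev0 (r : Unitization ℤ R) s = r * s
  simp [ev0]

theorem mul_of (e : UE R) (r : R) : e * UE.of r = UE.of (ev e r) := mul_inr_eq0 e r

theorem of_mul (e : UE R) (x : R) : UE.of x * e = UE.of (ve e x) := inr_mul_eq0 e x

theorem mul_ev (e : UE R) (x y : R) : x * ev e y = ve e x * y := by
  simp only [ev, ev0, ve, ve0, mul_add, add_mul, mul_smul_comm, smul_mul_assoc, mul_assoc]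

theorem ev_mem {P : AddSubgroup R} (hP : RedIdl P) (e : UE R) {r : R} (hr : r ∈ P) :
    ev e r ∈ P :=
  P.add_mem (P.zsmul_mem hr _) (hP.1 _ _ hr)

/-- The annihilator of `R / P` in the unitization. -/
def frakP (P : AddSubgroup R) (hP : RedIdl P) : Ideal (UE R) where
  carrier := {e | ∀ r, ev e r ∈ P}
  add_mem' := by
    intro a b ha hb r
    rw [ev_add]
    exact P.add_mem (ha r) (hb r)
  zero_mem' := by
    intro r
    rw [ev_zero]
    exact P.zero_mem
  smul_mem' := by
    intro c x hx r
    rw [smul_eq_mul, ev_mul]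
    exact ev_mem hP c (hx r)

theorem mem_frakP {P : AddSubgroup R} {hP : RedIdl P} {e : UE R} :
    e ∈ frakP P hP ↔ ∀ r, ev e r ∈ P := Iff.rfl

instance {P : AddSubgroup R} {hP : RedIdl P} : (frakP P hP).IsTwoSided :=
  ⟨by
    intro a b ha
    rw [mem_frakP] at ha ⊢
    intro r
    rw [ev_mul]
    exact ha _⟩

theorem isDomain_quot {P : AddSubgroup R} (hP : RedIdl P) {c : R} (hc : c ∉ P)
    (hprime : ∀ a b, a * b ∈ P → a ∈ P ∨ b ∈ P) : IsDomain (UE R ⧸ frakP P hP) := by
  have hnz : NoZeroDivisors (UE R ⧸ frakP P hP) := by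
    refine ⟨?_⟩
    intro a b hab
    obtain ⟨e, rfl⟩ := Ideal.Quotient.mk_surjective a
    obtain ⟨e', rfl⟩ := Ideal.Quotient.mk_surjective b
    rw [← map_mul, Ideal.Quotient.eq_zero_iff_mem, mem_frakP] at hab
    by_cases h : e' ∈ frakP P hP
    · right
      rwa [Ideal.Quotient.eq_zero_iff_mem]
    · left
      rw [Ideal.Quotient.eq_zero_iff_mem, mem_frakP]
      rw [mem_frakP] at h
      push Not at h
      obtain ⟨r, hr⟩ := h
      have h1 : ∀ x : R, ve e x ∈ P := by
        intro x
        have h2 : ve e x * ev e' r ∈ P := by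
          rw [← mul_ev, ← ev_mul]
          exact hP.1 x _ (hab r)
        exact (hprime _ _ h2).resolve_right hr
      intro s
      have h5 : c * ev e s ∈ P := by
        rw [mul_ev]
        exact hP.2.1 s _ (h1 c)
      exact (hprime _ _ h5).resolve_left hc
  have hnt : Nontrivial (UE R ⧸ frakP P hP) := by
    refine ⟨⟨Ideal.Quotient.mk _ (UE.of c), 0, ?_⟩⟩
    intro h
    rw [Ideal.Quotient.eq_zero_iff_mem, mem_frakP] at h
    have := h c
    rw [ev_of] at this
    exact hc (hP.2.2 c this)
  exact NoZeroDivisors.to_isDomain _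

variable {G : Type*} [Group G]

/-- Modulo a completely prime ideal the ring is commutative. -/
theorem comm_mod_prime (φ : G ≃ R) (hφ : ∀ g h, φ (g * h) = φ g + φ h + φ g * φ h)
    (hN : NormalizerCondition G) {P : AddSubgroup R} (hP : RedIdl P) {c : R} (hc : c ∉ P)
    (hprime : ∀ a b, a * b ∈ P → a ∈ P ∨ b ∈ P) (a b : R) : a * b - b * a ∈ P := by
  have := isDomain_quot hP hc hprime
  set q : UE R →+* UE R ⧸ frakP P hP := Ideal.Quotient.mk (frakP P hP) with hq
  let U0 : G →* UE R ⧸ frakP P hP :=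
    { toFun := fun g => q (1 + UE.of (φ g))
      map_one' := by
        rw [phi_one hφ, UE.of_zero, add_zero, map_one]
      map_mul' := by
        intro g h
        rw [← map_mul, hφ, UE.of_add, UE.of_add, UE.of_mul]
        congr 1
        noncomm_ring }
  let U : G →* (UE R ⧸ frakP P hP)ˣ := U0.toHomUnits
  have hUv : ∀ g, (U g : UE R ⧸ frakP P hP) = 1 + q (UE.of (φ g)) := by
    intro g
    change q (1 + UE.of (φ g)) = _
    rw [map_add, map_one]
  let rad : Ideal (UE R ⧸ frakP P hP) :=
    { carrier := {d | ∃ r : R, d = q (UE.of r)}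
      add_mem' := by
        rintro _ _ ⟨r, rfl⟩ ⟨s, rfl⟩
        exact ⟨r + s, by rw [UE.of_add, map_add]⟩
      zero_mem' := ⟨0, by rw [UE.of_zero, map_zero]⟩
      smul_mem' := by
        rintro d _ ⟨r, rfl⟩
        obtain ⟨e, rfl⟩ := Ideal.Quotient.mk_surjective d
        exact ⟨ev e r, by rw [smul_eq_mul, ← hq, ← map_mul, mul_of]⟩ }
  have h1 := dom_comm hN U rad (by
    rintro _ ⟨r, rfl⟩ d
    obtain ⟨e, rfl⟩ := Ideal.Quotient.mk_surjective d
    rw [← hq, ← map_mul, of_mul]
    exact ⟨_, rfl⟩) (by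
    intro g
    rw [hUv, add_sub_cancel_left]
    exact ⟨_, rfl⟩) (by
    rintro _ ⟨r, rfl⟩
    obtain ⟨g, rfl⟩ := φ.surjective r
    exact ⟨g, hUv g⟩)
  have h2 := h1 _ ⟨a, rfl⟩ _ ⟨b, rfl⟩
  rw [← map_mul, ← map_mul, ← sub_eq_zero, ← map_sub, hq, Ideal.Quotient.eq_zero_iff_mem,
    mem_frakP] at h2
  have h3 := h2 c
  rw [← UE.of_mul, ← UE.of_mul, ← UE.of_sub, ev_of] at h3
  exact (hprime _ _ h3).resolve_right hc

/-- The adjoint group has the normalizer condition: every semiprime quotient is commutative. -/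
theorem comm_mod_semiprime (φ : G ≃ R) (hφ : ∀ g h, φ (g * h) = φ g + φ h + φ g * φ h)
    (hN : NormalizerCondition G) (I : TwoSidedIdeal R)
    (hI : ∀ a, (∀ r, a * r * a ∈ I) → a ∈ I) (a b : R) : a * b - b * a ∈ I := by
  by_contra hc
  let I' : AddSubgroup R :=
    { carrier := {x | x ∈ I}
      add_mem' := fun ha hb => I.add_mem ha hb
      zero_mem' := I.zero_mem
      neg_mem' := fun ha => I.neg_mem ha }
  have hI' : RedIdl I' :=
    ⟨fun r x hx => I.mul_mem_left _ _ hx, fun r x hx => I.mul_mem_right _ _ hx,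
      fun b hb => reduced_of_semiprime φ hφ hN I hI b hb⟩
  obtain ⟨P, hP, -, hcP, hprime⟩ := exists_completelyPrime hI' (c := a * b - b * a) hc
  exact hcP (comm_mod_prime φ hφ hN hP hcP hprime a b)

end

end Pool.Agent.MP_b58d28_al.Adj
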