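import Pool.Agent.Lib.MP_b58d28_al.Adj.A6

/-! # Adjoint groups with the normalizer condition are hyperabelian -/

set_option autoImplicit false
set_option linter.unusedSectionVars false

namespace Pool.Agent.MP_b58d28_al.Adj

section

variable {G R : Type*} [Group G] [NonUnitalRing R]

/-- `K` is a two-sided ideal. -/
def Idl (K : AddSubgroup R) : Prop :=
  (∀ r x, x ∈ K → r * x ∈ K) ∧ (∀ r x, x ∈ K → x * r ∈ K)

theorem Idl.sub_mem {K : AddSubgroup R} (hK : Idl K) {φ : G ≃ R}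
    (hφ : ∀ g h, φ (g * h) = φ g + φ h + φ g * φ h) {g h : G} (hgh : φ g - φ h ∈ K) :
    φ (g * h⁻¹) ∈ K := by
  have h1 : φ h + φ h⁻¹ + φ h * φ h⁻¹ = 0 := by
    rw [← hφ, mul_inv_cancel, phi_one hφ]
  have h2 : φ (g * h⁻¹) = (φ g - φ h) + (φ g - φ h) * φ h⁻¹ := by
    have h3 : φ (g * h⁻¹) = φ g + φ h⁻¹ + φ g * φ h⁻¹ - (φ h + φ h⁻¹ + φ h * φ h⁻¹) := by
      rw [h1, hφ, sub_zero]
    rw [h3, sub_mul]
    abel
  rw [h2]
  exact K.add_mem hgh (hK.2 _ _ hgh)

/-- The normal subgroup belonging to an ideal. -/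
def grp {K : AddSubgroup R} (hK : Idl K) {φ : G ≃ R}
    (hφ : ∀ g h, φ (g * h) = φ g + φ h + φ g * φ h) : Subgroup G where
  carrier := {g | φ g ∈ K}
  one_mem' := by
    change φ 1 ∈ K
    rw [phi_one hφ]
    exact K.zero_mem
  mul_mem' := by
    intro a b ha hb
    change φ (a * b) ∈ K
    rw [hφ]
    exact K.add_mem (K.add_mem ha hb) (hK.1 _ _ hb)
  inv_mem' := by
    intro a ha
    have : φ (1 * a⁻¹) ∈ K := by
      apply hK.sub_mem hφ
      rw [phi_one hφ, zero_sub]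
      exact K.neg_mem ha
    rwa [one_mul] at this

theorem mem_grp {K : AddSubgroup R} {hK : Idl K} {φ : G ≃ R}
    {hφ : ∀ g h, φ (g * h) = φ g + φ h + φ g * φ h} {g : G} : g ∈ grp hK hφ ↔ φ g ∈ K := Iff.rfl

theorem grp_normal {K : AddSubgroup R} (hK : Idl K) {φ : G ≃ R}
    (hφ : ∀ g h, φ (g * h) = φ g + φ h + φ g * φ h) : (grp hK hφ).Normal := by
  constructor
  intro n hn g
  rw [mem_grp] at hn ⊢
  apply hK.sub_mem hφ
  have : φ (g * n) - φ g = φ n + φ g * φ n := by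
    rw [hφ]
    abel
  rw [this]
  exact K.add_mem hn (hK.1 _ _ hn)

/-- If an ideal `I` is not semiprime, there is a larger ideal whose square lies in `I`. -/
theorem exists_sq_le {I : AddSubgroup R} (hI : Idl I) {a : R} (ha : a ∉ I)
    (haa : ∀ r, a * r * a ∈ I) :
    ∃ J : AddSubgroup R, Idl J ∧ I ≤ J ∧ (∃ x ∈ J, x ∉ I) ∧ ∀ x ∈ J, ∀ y ∈ J, x * y ∈ I := by
  by_cases h1 : ∃ x, x ∉ I ∧ ∀ r, r * x ∈ I
  · obtain ⟨x, hx, hxr⟩ := h1
    refine ⟨{ carrier := {x | ∀ r, r * x ∈ I}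
              add_mem' := fun ha hb r => by rw [mul_add]; exact I.add_mem (ha r) (hb r)
              zero_mem' := fun r => by rw [mul_zero]; exact I.zero_mem
              neg_mem' := fun ha r => by rw [mul_neg]; exact I.neg_mem (ha r) },
      ⟨?_, ?_⟩, ?_, ⟨x, hxr, hx⟩, ?_⟩
    · intro r y hy s
      rw [← mul_assoc]
      exact hy _
    · intro r y hy s
      rw [← mul_assoc]
      exact hI.2 _ _ (hy s)
    · intro y hy r
      exact hI.1 _ _ hy
    · intro y _ z hz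
      exact hz y
  by_cases h2 : ∃ x, x ∉ I ∧ ∀ r, x * r ∈ I
  · obtain ⟨x, hx, hxr⟩ := h2
    refine ⟨{ carrier := {x | ∀ r, x * r ∈ I}
              add_mem' := fun ha hb r => by rw [add_mul]; exact I.add_mem (ha r) (hb r)
              zero_mem' := fun r => by rw [zero_mul]; exact I.zero_mem
              neg_mem' := fun ha r => by rw [neg_mul]; exact I.neg_mem (ha r) },
      ⟨?_, ?_⟩, ?_, ⟨x, hxr, hx⟩, ?_⟩
    · intro r y hy s
      rw [mul_assoc]
      exact hI.1 _ _ (hy s)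
    · intro r y hy s
      rw [mul_assoc]
      exact hy _
    · intro y hy r
      exact hI.2 _ _ hy
    · intro y hy z _
      exact hy z
  push Not at h1 h2
  obtain ⟨r0, hr0⟩ := h1 a ha
  obtain ⟨s0, hs0⟩ := h2 _ hr0
  set T : AddSubgroup R := AddSubgroup.closure {x | ∃ r s, x = r * a * s} with hT
  have hTl : ∀ r x, x ∈ T → r * x ∈ T := by
    intro r x hx
    induction hx using AddSubgroup.closure_induction with
    | mem x hx =>
      obtain ⟨u, v, rfl⟩ := hx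
      exact AddSubgroup.subset_closure ⟨r * u, v, by simp only [mul_assoc]⟩
    | zero => rw [mul_zero]; exact T.zero_mem
    | add x y _ _ hx hy => rw [mul_add]; exact T.add_mem hx hy
    | neg x _ hx => rw [mul_neg]; exact T.neg_mem hx
  have hTr : ∀ r x, x ∈ T → x * r ∈ T := by
    intro r x hx
    induction hx using AddSubgroup.closure_induction with
    | mem x hx =>
      obtain ⟨u, v, rfl⟩ := hx
      exact AddSubgroup.subset_closure ⟨u, v * r, by simp only [mul_assoc]⟩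
    | zero => rw [zero_mul]; exact T.zero_mem
    | add x y _ _ hx hy => rw [add_mul]; exact T.add_mem hx hy
    | neg x _ hx => rw [neg_mul]; exact T.neg_mem hx
  have hTT : ∀ x ∈ T, ∀ y ∈ T, x * y ∈ I := by
    intro x hx y hy
    induction hx using AddSubgroup.closure_induction with
    | mem x hx =>
      obtain ⟨u, v, rfl⟩ := hx
      induction hy using AddSubgroup.closure_induction with
      | mem y hy =>
        obtain ⟨u', v', rfl⟩ := hy
        have h3 : u * a * v * (u' * a * v') = u * (a * (v * u') * a) * v' := by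
          simp only [mul_assoc]
        rw [h3]
        exact hI.2 _ _ (hI.1 _ _ (haa _))
      | zero => rw [mul_zero]; exact I.zero_mem
      | add x y _ _ hx hy => rw [mul_add]; exact I.add_mem hx hy
      | neg x _ hx => rw [mul_neg]; exact I.neg_mem hx
    | zero => rw [zero_mul]; exact I.zero_mem
    | add x y _ _ hx hy => rw [add_mul]; exact I.add_mem hx hy
    | neg x _ hx => rw [neg_mul]; exact I.neg_mem hx
  refine ⟨T ⊔ I, ⟨?_, ?_⟩, le_sup_right, ⟨r0 * a * s0, ?_, hs0⟩, ?_⟩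
  · intro r x hx
    obtain ⟨y, hy, z, hz, rfl⟩ := AddSubgroup.mem_sup.mp hx
    rw [mul_add]
    exact AddSubgroup.mem_sup.mpr ⟨_, hTl r y hy, _, hI.1 r z hz, rfl⟩
  · intro r x hx
    obtain ⟨y, hy, z, hz, rfl⟩ := AddSubgroup.mem_sup.mp hx
    rw [add_mul]
    exact AddSubgroup.mem_sup.mpr ⟨_, hTr r y hy, _, hI.2 r z hz, rfl⟩
  · exact (le_sup_left : T ≤ T ⊔ I) (AddSubgroup.subset_closure ⟨r0, s0, rfl⟩)
  · intro x hx x' hx'
    obtain ⟨y, hy, z, hz, rfl⟩ := AddSubgroup.mem_sup.mp hx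
    obtain ⟨y', hy', z', hz', rfl⟩ := AddSubgroup.mem_sup.mp hx'
    rw [add_mul, mul_add]
    exact I.add_mem (I.add_mem (hTT _ hy _ hy') (hI.1 _ _ hz')) (hI.2 _ _ hz)

theorem comm_mem_of_sub {K : AddSubgroup R} (hK : Idl K) {φ : G ≃ R}
    (hφ : ∀ g h, φ (g * h) = φ g + φ h + φ g * φ h) {x y : G}
    (h : φ x * φ y - φ y * φ x ∈ K) : φ (x * y * x⁻¹ * y⁻¹) ∈ K := by
  have h1 : x * y * x⁻¹ * y⁻¹ = (x * y) * (y * x)⁻¹ := by group
  rw [h1]
  apply hK.sub_mem hφ
  have h2 : φ (x * y) - φ (y * x) = φ x * φ y - φ y * φ x := by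
    rw [hφ, hφ]
    abel
  rwa [h2]

theorem hyperabelian (φ : G ≃ R) (hφ : ∀ g h, φ (g * h) = φ g + φ h + φ g * φ h)
    (hN : NormalizerCondition G) (N : Subgroup G) (hNn : N.Normal) (hNt : N ≠ ⊤) :
    ∃ A : Subgroup G, A.Normal ∧ N < A ∧ ∀ x ∈ A, ∀ y ∈ A, x * y * x⁻¹ * y⁻¹ ∈ N := by
  obtain ⟨I, -, hI⟩ := zorn_le_nonempty₀
    {K : AddSubgroup R | Idl K ∧ ∀ g, φ g ∈ K → g ∈ N} (by
    intro s hs hchain K0 hK0
    have hmem : ∀ x, x ∈ sSup s ↔ ∃ K ∈ s, x ∈ K := fun x =>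
      AddSubgroup.mem_sSup_of_directedOn ⟨K0, hK0⟩ hchain.directedOn
    refine ⟨sSup s, ⟨⟨?_, ?_⟩, ?_⟩, fun K hK => le_sSup hK⟩
    · intro r x hx
      obtain ⟨K, hK, hxK⟩ := (hmem x).mp hx
      exact (hmem _).mpr ⟨K, hK, (hs hK).1.1 r x hxK⟩
    · intro r x hx
      obtain ⟨K, hK, hxK⟩ := (hmem x).mp hx
      exact (hmem _).mpr ⟨K, hK, (hs hK).1.2 r x hxK⟩
    · intro g hg
      obtain ⟨K, hK, hxK⟩ := (hmem _).mp hg
      exact (hs hK).2 g hxK) ⊥ ⟨⟨by
        intro r x hx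
        rw [AddSubgroup.mem_bot] at hx ⊢
        rw [hx, mul_zero], by
        intro r x hx
        rw [AddSubgroup.mem_bot] at hx ⊢
        rw [hx, zero_mul]⟩, by
        intro g hg
        rw [AddSubgroup.mem_bot] at hg
        have : g = 1 := φ.injective (by rw [hg, phi_one hφ])
        rw [this]
        exact N.one_mem⟩
  have hIi : Idl I := hI.1.1
  have hIN : ∀ g, φ g ∈ I → g ∈ N := hI.1.2
  by_cases hsp : ∀ a, (∀ r, a * r * a ∈ I) → a ∈ I
  · -- the quotient is commutative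
    let I' : TwoSidedIdeal R := TwoSidedIdeal.mk' (I : Set R) I.zero_mem
      (fun hx hy => I.add_mem hx hy) (fun hx => I.neg_mem hx) (fun hy => hIi.1 _ _ hy)
      (fun hx => hIi.2 _ _ hx)
    have hI'mem : ∀ x, x ∈ I' ↔ x ∈ I := fun x => by
      rw [TwoSidedIdeal.mem_mk']
      rfl
    have h1 := comm_mod_semiprime φ hφ hN I' (by
      intro a ha
      rw [hI'mem]
      apply hsp
      intro r
      exact (hI'mem _).mp (ha r))
    refine ⟨⊤, inferInstance, lt_top_iff_ne_top.mpr hNt, ?_⟩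
    intro x _ y _
    apply hIN
    apply comm_mem_of_sub hIi hφ
    exact (hI'mem _).mp (h1 _ _)
  · push Not at hsp
    obtain ⟨a, haa, ha⟩ := hsp
    obtain ⟨J, hJ, hIJ, ⟨x0, hx0, hx0I⟩, hJJ⟩ := exists_sq_le hIi ha haa
    have hJn := grp_normal hJ hφ
    refine ⟨N ⊔ grp hJ hφ, Subgroup.sup_normal _ _, ?_, ?_⟩
    · refine lt_of_le_of_ne le_sup_left ?_
      intro h
      have h2 : grp hJ hφ ≤ N := by
        rw [h]
        exact le_sup_right
      have h3 : J ≤ I := hI.2 (y := J) ⟨hJ, fun g hg => h2 hg⟩ hIJ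
      exact hx0I (h3 hx0)
    · intro x hx y hy
      obtain ⟨n, hn, g, hg, rfl⟩ := Subgroup.mem_sup_of_normal_right.mp hx
      obtain ⟨m, hm, h, hh, rfl⟩ := Subgroup.mem_sup_of_normal_right.mp hy
      have h1 : g * h * g⁻¹ * h⁻¹ ∈ N := by
        apply hIN
        apply comm_mem_of_sub hIi hφ
        exact I.sub_mem (hJJ _ hg _ hh) (hJJ _ hh _ hg)
      rw [← QuotientGroup.eq_one_iff] at h1 hn hm ⊢
      simp only [QuotientGroup.mk_mul, QuotientGroup.mk_inv] at h1 ⊢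
      rw [hn, hm, one_mul, one_mul]
      exact h1

end

end Pool.Agent.MP_b58d28_al.Adj
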